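import Pool.Agent.H70.RZT.S
import Pool.Agent.H3.T1.ZUNC

/-!
# RZT, row UNCN: the completions at an unramified prime which is not above `2`
-/

set_option autoImplicit false

namespace Pool.RZT

open Polynomial NumberField IsDedekindDomain Pool.HYP Pool.TOW Pool.AVS Pool.T1 Pool.NF

/-- `Loc` for a completion in which `2` is a unit. -/
theorem loc_of_cpl {E : Type} [Field E] (h2 : (2 : E) ≠ 0) {L : Type} [Field L]
    {O : ValuationSubring L} {ι : E →+* L} (hcpl : Cpl E L O ι) (h2i : (2 : L)⁻¹ ∈ O)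
    (π : L) (hπ : π ∈ O) (hπ' : π⁻¹ ∉ O) (hunif : ∀ z : L, z ∈ O → z⁻¹ ∉ O → z / π ∈ O) :
    Loc L O π := by
  have hdvr := hcpl.dvr
  have hπ0 : π ≠ 0 := by
    rintro rfl
    apply hπ'
    rw [inv_zero]
    exact O.zero_mem
  have h20 : (2 : L) ≠ 0 := by
    have : ι 2 = 2 := map_ofNat _ _
    rw [← this]
    exact (_root_.map_ne_zero ι).2 h2
  have hunit : ∀ z : O, IsUnit z ↔ ((z : L))⁻¹ ∈ O ∧ (z : L) ≠ 0 := by
    intro z
    constructor
    · rintro ⟨u, rfl⟩
      have h1 : ((u : O) : L) * ((u⁻¹ : Oˣ) : O) = 1 := by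
        have := congrArg (fun z : O => (z : L)) u.mul_inv
        exact this
      refine ⟨?_, left_ne_zero_of_mul_eq_one h1⟩
      rw [inv_eq_of_mul_eq_one_right h1]
      exact ((u⁻¹ : Oˣ) : O).2
    · rintro ⟨h1, h2⟩
      exact IsUnit.of_mul_eq_one ⟨_, h1⟩ (Subtype.ext (mul_inv_cancel₀ h2))
  have hmax : IsLocalRing.maximalIdeal O = Ideal.span {(⟨π, hπ⟩ : O)} := by
    apply le_antisymm
    · intro z hz
      rw [Ideal.mem_span_singleton]
      have hz1 : ¬ IsUnit z := (IsLocalRing.mem_maximalIdeal _).1 hz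
      by_cases hz0 : (z : L) = 0
      · have : z = 0 := Subtype.ext hz0
        rw [this]
        exact dvd_zero _
      · have hz2 : (z : L)⁻¹ ∉ O := fun h => hz1 ((hunit z).2 ⟨h, hz0⟩)
        refine ⟨⟨(z : L) / π, hunif z z.2 hz2⟩, Subtype.ext ?_⟩
        change (z : L) = π * ((z : L) / π)
        field_simp
    · rw [Ideal.span_le, Set.singleton_subset_iff]
      exact (IsLocalRing.mem_maximalIdeal _).2 fun h => hπ' ((hunit _).1 h).1
  have hirr : Irreducible (⟨π, hπ⟩ : O) := IsDiscreteValuationRing.irreducible_of_span_eq_maximalIdeal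
    _ (fun h => hπ0 (congrArg (fun z : O => (z : L)) h)) hmax
  have harch : ∀ z : O, z ≠ 0 → ∃ n : ℤ, (z : L) / π ^ n ∈ O ∧ ((z : L) / π ^ n)⁻¹ ∈ O := by
    intro z hz
    obtain ⟨n, u, hu⟩ := IsDiscreteValuationRing.eq_unit_mul_pow_irreducible hz hirr
    refine ⟨n, ?_⟩
    have h1 : (z : L) / π ^ (n : ℤ) = ((u : O) : L) := by
      rw [hu]
      change ((u : O) : L) * π ^ n / π ^ (n : ℤ) = _
      rw [zpow_natCast]
      field_simp
    rw [h1]
    exact ⟨(u : O).2, ((hunit _).1 u.isUnit).1⟩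
  refine ⟨⟨h20, h2i⟩, hπ0, hπ, ?_, ?_, ?_, hcpl.fin⟩
  · intro x hx hx0
    refine ⟨hunif x hx, fun h h' => hπ' ?_⟩
    have : π⁻¹ = x⁻¹ * (x / π) := by field_simp
    rw [this]
    exact mul_mem h' h
  · intro x hx0
    rcases O.mem_or_inv_mem x with h | h
    · exact harch ⟨x, h⟩ (fun h' => hx0 (congrArg (fun z : O => (z : L)) h'))
    · obtain ⟨n, hn1, hn2⟩ := harch ⟨x⁻¹, h⟩
        (fun h' => inv_ne_zero hx0 (congrArg (fun z : O => (z : L)) h'))
      refine ⟨-n, ?_⟩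
      have h1 : x / π ^ (-n) = (x⁻¹ / π ^ n)⁻¹ := by
        rw [zpow_neg]
        field_simp
      rw [h1, inv_inv]
      exact ⟨hn2, hn1⟩
  · have := hcpl.complete
    have : HenselianRing O (IsLocalRing.maximalIdeal O) := inferInstance
    exact
      { is_henselian := fun f hf a₀ h₁ h₂ =>
          HenselianRing.is_henselian f hf a₀ h₁ (h₂.map (Ideal.Quotient.mk _)) }

theorem uncn : UNCNStmt := by
  intro K _ _ P ϖ h2P h1 h2 E _ _ L _ O' ι hA hU
  obtain ⟨hc, hw⟩ := hA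
  have hϖ0 : algebraMap (𝓞 K) K ϖ ≠ 0 := by
    rw [Ne, map_eq_zero_iff _ (IsFractionRing.injective (𝓞 K) K)]
    rintro rfl
    exact h2 (Ideal.zero_mem _)
  have hmem : ∀ x : K, ι (algebraMap K E x) ∈ O' ↔ x ∈ vP K P := by
    intro x
    rw [← hw]
    rfl
  have h2E : (2 : E) ≠ 0 := by
    intro h
    have h3 : algebraMap K E 2 = 0 := by rw [map_ofNat]; exact h
    exact two_ne_zero ((map_eq_zero_iff _ (algebraMap K E).injective).1 h3)
  have h2v : P.valuation K (2 : K) = 1 := by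
    have h3 : (2 : K) = algebraMap (𝓞 K) K (2 : 𝓞 K) := (map_ofNat _ _).symm
    rw [h3]
    exact P.valuation_eq_one_iff_notMem.2 h2P
  have h2i : (2 : L)⁻¹ ∈ O' := by
    have h3 : (2 : L)⁻¹ = ι (algebraMap K E (2 : K)⁻¹) := by
      rw [map_inv₀, map_inv₀, map_ofNat, map_ofNat]
    rw [h3, hmem, vP_mem, map_inv₀, h2v, inv_one]
  refine ⟨?_, ?_, ?_⟩
  · apply loc_of_cpl h2E hc h2i
    · exact (hmem _).2 (vP_alg P ϖ)
    · intro h
      have h6 : (ι.comp (algebraMap K E)) (algebraMap (𝓞 K) K ϖ)⁻¹ ∈ O' := by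
        rw [map_inv₀]
        exact h
      have h3 : P.valuation K (algebraMap (𝓞 K) K ϖ)⁻¹ ≤ 1 := (hmem _).1 h6
      rw [map_inv₀ (P.valuation K), vP_unif h1 h2, ← WithZero.exp_neg, ← WithZero.exp_zero,
        WithZero.exp_le_exp] at h3
      omega
    · intro z hz hzi
      obtain ⟨x, hx, hxi, hd⟩ := hU L O' ι ⟨hc, hw⟩ z hz hzi
      by_cases hx0 : x = 0
      · exfalso
        apply hxi
        rw [hx0, inv_zero]
        exact zero_mem _
      have h3 : ι (algebraMap K E x) ≠ 0 := by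
        rw [Ne, map_eq_zero_iff _ ι.injective, map_eq_zero_iff _ (algebraMap K E).injective]
        exact hx0
      have h4 : ι (algebraMap K E (algebraMap (𝓞 K) K ϖ)) ≠ 0 := by
        rw [Ne, map_eq_zero_iff _ ι.injective, map_eq_zero_iff _ (algebraMap K E).injective]
        exact hϖ0
      have h5 : z / ι (algebraMap K E (algebraMap (𝓞 K) K ϖ)) =
          z / ι (algebraMap K E x) * ι (algebraMap K E (x / algebraMap (𝓞 K) K ϖ)) := by
        rw [map_div₀, map_div₀]
        field_simp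
      change z / ι (algebraMap K E (algebraMap (𝓞 K) K ϖ)) ∈ O'
      rw [h5]
      exact mul_mem hd ((hmem _).2 (vP_div h1 h2 hxi))
  · intro a
    exact (hmem _).2 (vP_alg P a)
  · intro a
    have h3 : (ι.comp (algebraMap K E)) (algebraMap (𝓞 K) K a) /
        (ι.comp (algebraMap K E)) (algebraMap (𝓞 K) K ϖ) =
        ι (algebraMap K E (algebraMap (𝓞 K) K a / algebraMap (𝓞 K) K ϖ)) := by
      rw [map_div₀, map_div₀]
      rfl
    rw [h3, hmem, vP_div_alg h1 h2]

end Pool.RZT
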